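import Pool.Agent.Helper630_Eta.Fin
import Pool.Agent.Helper630_Eta.Exist

set_option autoImplicit false
open Filter Topology

namespace Pool.Agent.Results.MP_bd7e56_nt.RealAxis

/-- the function is the Dirichlet eta function: entire, and the sum of the alternating series
for positive real part -/
def IsEta (η : ℂ → ℂ) : Prop :=
  Differentiable ℂ η ∧ ∀ s : ℂ, 0 < s.re →
    Tendsto (fun n : ℕ => ∑ k ∈ Finset.range n, (-1 : ℂ) ^ k / ((k : ℂ) + 1) ^ s) atTop (𝓝 (η s))

/-- the Hankel determinant `H_N(a)` -/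
noncomputable def hankelH (η : ℂ → ℂ) (N : ℕ) (a : ℂ) : ℂ :=
  (Matrix.of fun j k : Fin N => iteratedDeriv ((j : ℕ) + k) η a).det

/-- the Hankel determinant `G_N(a)` -/
noncomputable def hankelG (η : ℂ → ℂ) (N : ℕ) (a : ℂ) : ℂ :=
  (Matrix.of fun j k : Fin (N - 1) => iteratedDeriv ((j : ℕ) + k + 2) η a).det

open Pool.Agent.Helper630.Eta

lemma eps_eq (n : ℕ) : eps n = (-1) ^ (n * (n - 1) / 2) := by
  induction n with
  | zero => simp [eps]
  | succ n ih =>
    have h1 : eps (n + 1) = (-1) ^ n * eps n := by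
      unfold eps
      rw [Fin.prod_univ_succ, Fin.prod_Ioi_zero]
      simp only [Finset.prod_const, Finset.card_univ, Fintype.card_fin]
      congr 1
      refine Finset.prod_congr rfl fun i _ => ?_
      simp only [Fin.card_Ioi, Fin.val_succ]
      congr 1
      omega
    rw [h1, ih, ← pow_add]
    congr 1
    rw [Nat.add_sub_cancel]
    have h2 : (n + 1) * n = n * (n - 1) + 2 * n := by
      rcases n with _ | n
      · simp
      · simp only [Nat.add_sub_cancel]; ring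
    rw [h2, Nat.add_mul_div_left _ _ (by norm_num)]
    ring

lemma unique_eta {η₁ η₂ : ℂ → ℂ} (h₁ : IsEta η₁) (h₂ : IsEta η₂) : η₁ = η₂ := by
  have a1 : AnalyticOnNhd ℂ η₁ Set.univ := h₁.1.differentiableOn.analyticOnNhd isOpen_univ
  have a2 : AnalyticOnNhd ℂ η₂ Set.univ := h₂.1.differentiableOn.analyticOnNhd isOpen_univ
  refine a1.eq_of_eventuallyEq a2 (z₀ := 1) ?_
  have hO : IsOpen {s : ℂ | 0 < s.re} := isOpen_lt continuous_const Complex.continuous_re
  filter_upwards [hO.mem_nhds (show (1 : ℂ) ∈ {s : ℂ | 0 < s.re} by simp)] with s hs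
  exact tendsto_nhds_unique (h₁.2 s hs) (h₂.2 s hs)

lemma main_real {η : ℂ → ℂ} (hη : IsEta η) {a : ℝ} (ha : 0 < a) {N : ℕ} (hN : 1 ≤ N) :
    ∃ h g : ℝ, hankelH η N a = h ∧ hankelG η N a = g ∧
      0 < (-1) ^ (N * (N - 1) / 2) * h ∧ 0 < (-1) ^ (N * (N - 1) / 2) * g ∧
      0 < (-1) ^ N * (1 - g / h) ∧
      (-1) ^ N * (1 - g / h) ≤ (1 + 2 / ((N : ℝ) + 1)) ^ (-((N : ℝ) * (N - 1) + N * a)) := by
  obtain ⟨n, rfl⟩ : ∃ n, N = n + 1 := ⟨N - 1, by omega⟩
  set e : ℕ → ℝ := fun r => (iteratedDeriv r η a).re with he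
  have hl := fun r => eta_lim hη.1 (hasSum_of_tendsto hη.2) ha r
  have hx : 0 < a / 2 := by linarith
  have h2x : 2 * (a / 2) = a := by ring
  obtain ⟨m1, m2, m3⟩ := real_main (x := a / 2) (e := e) hx (by rw [h2x]; exact fun r => (hl r).2) n
  set h := (Matrix.of fun p q : Fin (n + 1) => e (p + q)).det with hh
  set g := (Matrix.of fun p q : Fin n => e (p + q + 2)).det with hg
  set μ : ℝ := 1 + 2 / (((n + 1 : ℕ) : ℝ) + 1) with hμ
  set E := eps (n + 1) with hE
  have eH : hankelH η (n + 1) a = h := by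
    unfold hankelH
    have : (Matrix.of fun j k : Fin (n + 1) => iteratedDeriv ((j : ℕ) + k) η (a : ℂ)) =
        (Complex.ofRealHom).mapMatrix (Matrix.of fun p q : Fin (n + 1) => e (p + q)) := by
      ext i j
      simp only [Matrix.of_apply, RingHom.mapMatrix_apply, Matrix.map_apply]
      exact (hl _).1.symm
    rw [this, ← RingHom.map_det]
    rfl
  have eG : hankelG η (n + 1) a = g := by
    unfold hankelG
    have : (Matrix.of fun j k : Fin n => iteratedDeriv ((j : ℕ) + k + 2) η (a : ℂ)) =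
        (Complex.ofRealHom).mapMatrix (Matrix.of fun p q : Fin n => e (p + q + 2)) := by
      ext i j
      simp only [Matrix.of_apply, RingHom.mapMatrix_apply, Matrix.map_apply]
      exact (hl _).1.symm
    show (Matrix.of fun j k : Fin n => iteratedDeriv ((j : ℕ) + k + 2) η (a : ℂ)).det = g
    rw [this, ← RingHom.map_det]
    rfl
  have hμ1 : 1 < μ := by
    rw [hμ]
    have : (0 : ℝ) < 2 / (((n + 1 : ℕ) : ℝ) + 1) := by positivity
    linarith
  have hμ0 : 0 < μ := by linarith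
  have hD : (-1) ^ (n + 1) * (1 - g / h) = (E * ((-1) ^ (n + 1) * (h - g))) / (E * h) := by
    have hh0 : h ≠ 0 := by
      intro h0; rw [h0, mul_zero] at m1; exact lt_irrefl _ m1
    have hE0 : E ≠ 0 := by
      intro h0; rw [h0, zero_mul] at m1; exact lt_irrefl _ m1
    field_simp
  set D := (-1) ^ (n + 1) * (1 - g / h) with hDd
  have hDpos : 0 < D := by rw [hD]; exact div_pos m2 m1
  have hexp : μ ^ (-((((n + 1 : ℕ) : ℝ)) * ((((n + 1 : ℕ) : ℝ)) - 1) + (((n + 1 : ℕ) : ℝ)) * a)) =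
      (μ ^ ((n + 1) * n))⁻¹ * ((μ ^ (-(a / 2))) ^ 2) ^ (n + 1) := by
    rw [← Real.rpow_natCast, ← Real.rpow_neg hμ0.le, ← Real.rpow_natCast (μ ^ (-(a / 2))) 2,
      ← Real.rpow_mul hμ0.le, ← Real.rpow_natCast _ (n + 1), ← Real.rpow_mul hμ0.le,
      ← Real.rpow_add hμ0]
    congr 1
    push_cast
    ring
  have hDle : D ≤ μ ^ (-((((n + 1 : ℕ) : ℝ)) * ((((n + 1 : ℕ) : ℝ)) - 1) + (((n + 1 : ℕ) : ℝ)) * a)) := by
    rw [hexp, hD, div_le_iff₀ m1]
    have hp : 0 < μ ^ ((n + 1) * n) := by positivity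
    rw [mul_assoc, inv_mul_eq_div, le_div_iff₀ hp, mul_comm _ (μ ^ ((n + 1) * n))]
    exact m3
  have hD1 : D < 1 := by
    refine lt_of_le_of_lt hDle ?_
    refine Real.rpow_lt_one_of_one_lt_of_neg hμ1 ?_
    push_cast
    have : (0 : ℝ) ≤ n := Nat.cast_nonneg n
    nlinarith
  have hgh : 0 < g / h := by
    have habs : |1 - g / h| = D := by
      have : |D| = |1 - g / h| := by
        rw [hDd, abs_mul, abs_pow, abs_neg, abs_one, one_pow, one_mul]
      rw [← this, abs_of_pos hDpos]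
    have := (abs_lt.1 (habs.trans_lt hD1)).2
    linarith
  rw [← eps_eq]
  refine ⟨h, g, eH, eG, m1, ?_, hDpos, hDle⟩
  have hh0 : h ≠ 0 := by
    intro h0; rw [h0, mul_zero] at m1; exact lt_irrefl _ m1
  have : E * g = (g / h) * (E * h) := by field_simp
  rw [this]
  exact mul_pos hgh m1

/-- For the eta function and every real `a > 0`: all the determinants `H_N(a)`, `G_N(a)` are
nonzero, `G_N(a) / H_N(a)` is `1` up to an explicit alternating error, and `S_N(a)` tends to `1`. -/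
theorem result : (∃! η : ℂ → ℂ, IsEta η) ∧ ∀ η : ℂ → ℂ, IsEta η → ∀ a : ℝ, 0 < a →
    (∀ N : ℕ, 1 ≤ N → ∃ h g : ℝ, hankelH η N a = h ∧ hankelG η N a = g ∧
      0 < (-1) ^ (N * (N - 1) / 2) * h ∧ 0 < (-1) ^ (N * (N - 1) / 2) * g ∧
      0 < (-1) ^ N * (1 - g / h) ∧
      (-1) ^ N * (1 - g / h) ≤ (1 + 2 / ((N : ℝ) + 1)) ^ (-((N : ℝ) * (N - 1) + N * a))) ∧
    Tendsto (fun N : ℕ => hankelH η N a / hankelG η N a) atTop (𝓝 1) := by
  refine ⟨?_, ?_⟩
  · obtain ⟨η, h1, h2⟩ := exists_eta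
    exact ⟨η, ⟨h1, tendsto_all h1 h2⟩, fun η' h' => unique_eta h' ⟨h1, tendsto_all h1 h2⟩⟩
  · intro η hη a ha
    refine ⟨fun N hN => main_real hη ha hN, ?_⟩
    choose! h g hH hG h1 h2 h3 h4 using fun N : ℕ => main_real hη ha (N := N)
    -- the bound tends to zero
    have hb : Tendsto (fun N : ℕ => (1 + 2 / ((N : ℝ) + 1)) ^ (-((N : ℝ) * (N - 1) + N * a)))
        atTop (𝓝 0) := by
      have h5 : Tendsto (fun N : ℕ => (1 + (N : ℝ))⁻¹ * 4) atTop (𝓝 0) := by
        have h6 : Tendsto (fun N : ℕ => (1 + (N : ℝ))⁻¹) atTop (𝓝 0) :=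
          (tendsto_atTop_add_const_left _ 1 tendsto_natCast_atTop_atTop).inv_tendsto_atTop
        simpa using h6.mul_const 4
      refine squeeze_zero' ?_ ?_ h5
      · exact Eventually.of_forall fun N => by positivity
      · filter_upwards [eventually_ge_atTop 2] with N hN
        have hNr : (2 : ℝ) ≤ N := by exact_mod_cast hN
        have hμ : (1 : ℝ) ≤ 1 + 2 / ((N : ℝ) + 1) := by
          have : (0 : ℝ) ≤ 2 / ((N : ℝ) + 1) := by positivity
          linarith
        have e1 : (1 + 2 / ((N : ℝ) + 1)) ^ (-((N : ℝ) * (N - 1) + N * a)) ≤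
            (1 + 2 / ((N : ℝ) + 1)) ^ (-(((N * (N - 1) : ℕ)) : ℝ)) := by
          refine Real.rpow_le_rpow_of_exponent_le hμ ?_
          rw [Nat.cast_mul, Nat.cast_sub (by omega)]
          push_cast
          have : 0 ≤ (N : ℝ) * a := by positivity
          linarith
        refine e1.trans ?_
        rw [Real.rpow_neg (by linarith), Real.rpow_natCast]
        have e2 : 1 + ((N * (N - 1) : ℕ) : ℝ) * (2 / ((N : ℝ) + 1)) ≤
            (1 + 2 / ((N : ℝ) + 1)) ^ (N * (N - 1)) :=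
          one_add_mul_le_pow (le_trans (by norm_num) (show (0 : ℝ) ≤ 2 / ((N : ℝ) + 1) by positivity)) _
        have e3 : (1 + (N : ℝ)) / 4 ≤ 1 + ((N * (N - 1) : ℕ) : ℝ) * (2 / ((N : ℝ) + 1)) := by
          rw [Nat.cast_mul, Nat.cast_sub (by omega), Nat.cast_one, mul_div_assoc', ← sub_le_iff_le_add']
          rw [le_div_iff₀ (by positivity)]
          nlinarith
        have e4 : 0 < (1 + (N : ℝ)) / 4 := by positivity
        calc ((1 + 2 / ((N : ℝ) + 1)) ^ (N * (N - 1)))⁻¹ ≤ ((1 + (N : ℝ)) / 4)⁻¹ :=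
              inv_anti₀ e4 (e3.trans e2)
          _ = (1 + (N : ℝ))⁻¹ * 4 := by rw [inv_div]; field_simp
    have hr : Tendsto (fun N : ℕ => g N / h N) atTop (𝓝 1) := by
      rw [tendsto_iff_norm_sub_tendsto_zero]
      refine squeeze_zero' (Eventually.of_forall fun N => norm_nonneg _) ?_ hb
      filter_upwards [eventually_ge_atTop 1] with N hN
      refine le_trans (le_of_eq ?_) (h4 N hN)
      have : |(-1 : ℝ) ^ N * (1 - g N / h N)| = |1 - g N / h N| := by
        rw [abs_mul, abs_pow, abs_neg, abs_one, one_pow, one_mul]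
      rw [← abs_of_pos (h3 N hN), this, Real.norm_eq_abs, abs_sub_comm]
    have hr2 : Tendsto (fun N : ℕ => ((((g N / h N)⁻¹ : ℝ)) : ℂ)) atTop (𝓝 ((((1 : ℝ)⁻¹ : ℝ)) : ℂ)) :=
      (Complex.continuous_ofReal.tendsto _).comp (hr.inv₀ one_ne_zero)
    rw [inv_one, Complex.ofReal_one] at hr2
    refine hr2.congr' ?_
    filter_upwards [eventually_ge_atTop 1] with N hN
    rw [hH N hN, hG N hN, inv_div]
    push_cast
    rfl

end Pool.Agent.Results.MP_bd7e56_nt.RealAxis
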